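import Pool.Agent.J6H20.Jump.Defs

/-!
# Baire category: one half of the Kuratowski–Ulam theorem
-/

set_option autoImplicit false
set_option linter.unusedSectionVars false

namespace Pool.Agent.J6H20.Jump

open Filter Topology Set

/-- **Kuratowski–Ulam** for the preimages of a residual set under a map for which the preimages of
dense open sets are dense. -/
theorem kuratowski_ulam {A B Z : Type} [TopologicalSpace A] [TopologicalSpace B]
    [TopologicalSpace Z] [SecondCountableTopology B] (m : A → B → Z)
    (hc : Continuous fun p : A × B => m p.1 p.2)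
    (hd : ∀ O : Set Z, IsOpen O → Dense O → Dense {p : A × B | m p.1 p.2 ∈ O})
    {C : Set Z} (hC : C ∈ residual Z) : {a | {b | m a b ∈ C} ∈ residual B} ∈ residual A := by
  have key : ∀ O : Set Z, IsOpen O → Dense O → {a | {b | m a b ∈ O} ∈ residual B} ∈ residual A := by
    intro O hO hOd
    have h1 : IsOpen {p : A × B | m p.1 p.2 ∈ O} := hO.preimage hc
    have h2 := hd O hO hOd
    set 𝔅 := TopologicalSpace.countableBasis B
    have h3 : ∀ V ∈ 𝔅, {a : A | V.Nonempty → ∃ b ∈ V, m a b ∈ O} ∈ residual A := by
      intro V hV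
      by_cases hne : V.Nonempty
      · have hVo : IsOpen V := TopologicalSpace.isOpen_of_mem_countableBasis hV
        apply residual_of_dense_open
        · have : {a : A | V.Nonempty → ∃ b ∈ V, m a b ∈ O} =
              ⋃ b ∈ V, {a | m a b ∈ O} := by
            ext a
            simp [hne]
          rw [this]
          refine isOpen_biUnion fun b _ => ?_
          exact h1.preimage (f := fun a : A => (a, b)) (by fun_prop)
        · rw [dense_iff_inter_open]
          rintro U hU ⟨u, hu⟩
          obtain ⟨v, hv⟩ := hne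
          obtain ⟨⟨a, b⟩, hab1, hab2⟩ := h2.inter_open_nonempty (U ×ˢ V) (hU.prod hVo)
            ⟨(u, v), hu, hv⟩
          exact ⟨a, hab1.1, fun _ => ⟨b, hab1.2, hab2⟩⟩
      · refine Filter.mem_of_superset Filter.univ_mem fun a _ h => absurd h hne
    have h4 : {a : A | ∀ V ∈ 𝔅, V.Nonempty → ∃ b ∈ V, m a b ∈ O} ∈ residual A := by
      have : {a : A | ∀ V ∈ 𝔅, V.Nonempty → ∃ b ∈ V, m a b ∈ O} =
          ⋂ V ∈ 𝔅, {a : A | V.Nonempty → ∃ b ∈ V, m a b ∈ O} := by
        ext a; simp
      rw [this]
      exact (countable_bInter_mem (TopologicalSpace.countable_countableBasis B)).2 h3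
    refine Filter.mem_of_superset h4 fun a ha => ?_
    apply residual_of_dense_open
    · exact h1.preimage (f := fun b : B => (a, b)) (by fun_prop)
    · rw [(TopologicalSpace.isBasis_countableBasis B).dense_iff]
      intro V hV hne
      obtain ⟨b, hb1, hb2⟩ := ha V hV hne
      exact ⟨b, hb1, hb2⟩
  obtain ⟨S, hSo, hSd, hSc, hS⟩ := mem_residual_iff.1 hC
  have h5 : (⋂ O ∈ S, {a : A | {b | m a b ∈ O} ∈ residual B}) ∈ residual A :=
    (countable_bInter_mem hSc).2 fun O hO => key O (hSo O hO) (hSd O hO)
  refine Filter.mem_of_superset h5 fun a ha => ?_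
  simp only [mem_iInter] at ha
  have h6 : (⋂ O ∈ S, {b | m a b ∈ O}) ∈ residual B :=
    (countable_bInter_mem hSc).2 fun O hO => ha O hO
  refine Filter.mem_of_superset h6 fun b hb => ?_
  simp only [mem_iInter] at hb
  exact hS fun O hO => hb O hO

/-- A Borel map to a second countable space is given by open sets on a residual set. -/
theorem borel_residual {Z W : Type} [TopologicalSpace Z] [TopologicalSpace W]
    [SecondCountableTopology W] {f : Z → W} (hf : @Measurable Z W (borel Z) (borel W) f) :
    ∃ U : Set W → Set Z, (∀ V, IsOpen (U V)) ∧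
      {x | ∀ V ∈ TopologicalSpace.countableBasis W, f x ∈ V ↔ x ∈ U V} ∈ residual Z := by
  letI : MeasurableSpace Z := borel Z
  haveI : BorelSpace Z := ⟨rfl⟩
  have h : ∀ V : Set W, ∃ U : Set Z, IsOpen U ∧
      (V ∈ TopologicalSpace.countableBasis W → {x | f x ∈ V ↔ x ∈ U} ∈ residual Z) := by
    intro V
    by_cases hV : V ∈ TopologicalSpace.countableBasis W
    · have hVo : IsOpen V := TopologicalSpace.isOpen_of_mem_countableBasis hV
      have hm : MeasurableSet (f ⁻¹' V) :=
        hf (MeasurableSpace.measurableSet_generateFrom hVo)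
      obtain ⟨U, hU, hUe⟩ := hm.residualEq_isOpen
      refine ⟨U, hU, fun _ => ?_⟩
      filter_upwards [hUe] with x hx
      exact iff_of_eq hx
    · exact ⟨∅, isOpen_empty, fun h => absurd h hV⟩
  choose U hU1 hU2 using h
  refine ⟨U, hU1, ?_⟩
  have : {x | ∀ V ∈ TopologicalSpace.countableBasis W, f x ∈ V ↔ x ∈ U V} =
      ⋂ V ∈ TopologicalSpace.countableBasis W, {x | f x ∈ V ↔ x ∈ U V} := by
    ext x; simp
  rw [this]
  exact (countable_bInter_mem (TopologicalSpace.countable_countableBasis W)).2 fun V hV =>
    hU2 V hV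

end Pool.Agent.J6H20.Jump
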