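import Mathlib

/-!
# Group jumps and Borel reducibility
-/

set_option autoImplicit false

namespace Pool.Agent.J6H20.Jump

/-- The `G`-jump `E^[G]` of the relation `E` on `X`: the relation on `G → X` such that `α` and `β` are
related if and only if there is `g` in `G` with `E (α (g⁻¹ * h)) (β h)` for all `h` in `G`. -/
def GroupJump (G : Type) [Group G] {X : Type} (E : X → X → Prop) (α β : G → X) : Prop :=
  ∃ g : G, ∀ h : G, E (α (g⁻¹ * h)) (β h)

/-- Borel reducibility `E ≤_B F` of relations on topological spaces: there is a Borel map `f` with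
`E x x'` if and only if `F (f x) (f x')`. -/
def BorelReducible {X Y : Type} [TopologicalSpace X] [TopologicalSpace Y] (E : X → X → Prop)
    (F : Y → Y → Prop) : Prop :=
  ∃ f : X → Y, @Measurable X Y (borel X) (borel Y) f ∧ ∀ x x', E x x' ↔ F (f x) (f x')

/-- Borel bi-reducibility. -/
def BorelBireducible {X Y : Type} [TopologicalSpace X] [TopologicalSpace Y] (E : X → X → Prop)
    (F : Y → Y → Prop) : Prop :=
  BorelReducible E F ∧ BorelReducible F E

end Pool.Agent.J6H20.Jump
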