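import Pool.Agent.J6H20.Jump.Cat

/-!
# The iterated jump of equality is not essentially countable
-/

set_option autoImplicit false
set_option linter.unusedSectionVars false

namespace Pool.Agent.J6H20.Jump

open Filter Topology Set

section

variable {G H X : Type} [Group G] [Group H]

/-- The action of `G ^ H` on `(X ^ G) ^ H`. -/
def act (g : H → G) (z : H → G → X) : H → G → X := fun l u => z l ((g l)⁻¹ * u)

theorem jump_act (g : H → G) (z : H → G → X) :
    GroupJump H (GroupJump G (Eq : X → X → Prop)) z (act g z) := by
  refine ⟨1, fun l => ⟨g l, fun u => ?_⟩⟩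
  rw [inv_one, one_mul]
  rfl

theorem act_act (g g' : H → G) (z : H → G → X) : act g (act g' z) = act (g * g') z := by
  funext l u
  simp [act, mul_inv_rev, mul_assoc]

theorem act_one (z : H → G → X) : act (1 : H → G) z = z := by
  funext l u
  simp [act]

open scoped Classical in
/-- `z` on `F` and `z'` off `F`. -/
noncomputable def merge (F : Finset H) (z z' : H → G → X) : H → G → X :=
  fun l => if l ∈ F then z l else z' l

theorem merge_of_mem {F : Finset H} {l : H} (h : l ∈ F) (z z' : H → G → X) :
    merge F z z' l = z l := by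
  simp [merge, h]

theorem merge_of_notMem {F : Finset H} {l : H} (h : l ∉ F) (z z' : H → G → X) :
    merge F z z' l = z' l := by
  simp [merge, h]

variable [TopologicalSpace X]

theorem continuous_act_right (g : H → G) : Continuous fun z : H → G → X => act g z :=
  continuous_pi fun l => continuous_pi fun u =>
    (continuous_apply ((g l)⁻¹ * u)).comp (continuous_apply l)

theorem continuous_act [TopologicalSpace G] [DiscreteTopology G] :
    Continuous fun p : (H → G → X) × (H → G) => act p.2 p.1 := by
  refine continuous_pi fun l => continuous_pi fun u => ?_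
  have h1 : Continuous fun q : (G → X) × G => q.1 (q.2⁻¹ * u) := by
    refine continuous_iff_continuousAt.2 fun ⟨y, g⟩ => ?_
    have h2 : ∀ᶠ q : (G → X) × G in 𝓝 (y, g), q.2 = g :=
      (continuous_snd.continuousAt (x := (y, g))).preimage_mem_nhds
        ((isOpen_discrete {g}).mem_nhds rfl)
    have h3 : ContinuousAt (fun q : (G → X) × G => q.1 (g⁻¹ * u)) (y, g) :=
      ((continuous_apply (g⁻¹ * u)).comp continuous_fst).continuousAt
    refine h3.congr ?_
    filter_upwards [h2] with q hq
    rw [hq]
  have h4 : Continuous fun p : (H → G → X) × (H → G) => (p.1 l, p.2 l) := by fun_prop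
  exact h1.comp h4

theorem dense_act [TopologicalSpace G] [DiscreteTopology G] {O : Set (H → G → X)} (hOd : Dense O) :
    Dense {p : (H → G → X) × (H → G) | act p.2 p.1 ∈ O} := by
  rintro ⟨z, g⟩
  have h1 : Dense {z : H → G → X | act g z ∈ O} := by
    have : {z : H → G → X | act g z ∈ O} = (fun z => act g⁻¹ z) '' O := by
      ext z
      constructor
      · intro hz
        exact ⟨act g z, hz, by simp only [act_act]; simp [act_one]⟩
      · rintro ⟨w, hw, rfl⟩
        simp only [Set.mem_ofPred_eq, act_act]
        simpa [act_one] using hw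
    rw [this]
    refine DenseRange.dense_image (f := fun z : H → G → X => act g⁻¹ z) ?_
      (continuous_act_right _) hOd
    refine Function.Surjective.denseRange fun z => ⟨act g z, ?_⟩
    simp only [act_act]
    simp [act_one]
  have h2 : Continuous fun z' : H → G → X => (z', g) := by fun_prop
  exact closure_mono (image_subset_iff.2 fun z' hz' => hz')
    (image_closure_subset_closure_image h2 ⟨z, h1 z, rfl⟩)

theorem continuous_merge (F : Finset H) :
    Continuous fun p : (H → G → X) × (H → G → X) => merge F p.1 p.2 := by
  refine continuous_pi fun l => ?_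
  by_cases h : l ∈ F
  · simp only [merge_of_mem h]
    exact (continuous_apply l).comp continuous_fst
  · simp only [merge_of_notMem h]
    exact (continuous_apply l).comp continuous_snd

theorem dense_merge (F : Finset H) {O : Set (H → G → X)} (hOd : Dense O) :
    Dense {p : (H → G → X) × (H → G → X) | merge F p.1 p.2 ∈ O} := by
  rintro ⟨z, z'⟩
  let Φ : (H → G → X) → (H → G → X) × (H → G → X) := fun o => (merge F o z, merge F z' o)
  have hΦ : Continuous Φ :=
    ((continuous_merge F).comp (by fun_prop : Continuous fun o : H → G → X => (o, z))).prodMk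
      ((continuous_merge F).comp (by fun_prop : Continuous fun o : H → G → X => (z', o)))
  have h1 : Φ (merge F z z') = (z, z') := by
    refine Prod.ext ?_ ?_
    · funext l
      by_cases h : l ∈ F
      · simp only [Φ, merge_of_mem h]
      · simp only [Φ, merge_of_notMem h]
    · funext l
      by_cases h : l ∈ F
      · simp only [Φ, merge_of_mem h]
      · simp only [Φ, merge_of_notMem h]
  have h2 : Φ '' O ⊆ {p : (H → G → X) × (H → G → X) | merge F p.1 p.2 ∈ O} := by
    rintro _ ⟨o, ho, rfl⟩
    have : merge F (Φ o).1 (Φ o).2 = o := by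
      funext l
      by_cases h : l ∈ F
      · simp only [Φ, merge_of_mem h]
      · simp only [Φ, merge_of_notMem h]
    simp only [Set.mem_ofPred_eq, this]
    exact ho
  rw [← h1]
  exact closure_mono h2 (image_closure_subset_closure_image hΦ ⟨_, hOd _, rfl⟩)

end

section

variable {G X : Type} [Group G] [TopologicalSpace X]

/-- The points of `X ^ G` with dense orbit form a residual set. -/
theorem residual_dense_orbit [Infinite G] [Countable G] [SecondCountableTopology X] :
    {y : G → X | Dense (range fun g : G => fun u : G => y (g⁻¹ * u))} ∈ residual (G → X) := by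
  classical
  set 𝔅 := TopologicalSpace.countableBasis (G → X)
  have h1 : ∀ V ∈ 𝔅, {y : G → X | V.Nonempty → ∃ g : G, (fun u : G => y (g⁻¹ * u)) ∈ V} ∈
      residual (G → X) := by
    intro V hV
    by_cases hne : V.Nonempty
    · have hVo : IsOpen V := TopologicalSpace.isOpen_of_mem_countableBasis hV
      apply residual_of_dense_open
      · have : {y : G → X | V.Nonempty → ∃ g : G, (fun u : G => y (g⁻¹ * u)) ∈ V} =
            ⋃ g : G, (fun y : G → X => fun u : G => y (g⁻¹ * u)) ⁻¹' V := by
          ext y
          simp [hne]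
        rw [this]
        refine isOpen_iUnion fun g => hVo.preimage ?_
        exact continuous_pi fun u => continuous_apply _
      · rw [dense_iff_inter_open]
        rintro U hU ⟨y, hy⟩
        obtain ⟨v, hv⟩ := hne
        obtain ⟨A, a, ha1, ha2⟩ := isOpen_pi_iff.1 hU y hy
        obtain ⟨B, b, hb1, hb2⟩ := isOpen_pi_iff.1 hVo v hv
        obtain ⟨g, hg⟩ := Infinite.exists_notMem_finset
          ((A ×ˢ B).image fun p : G × G => p.2 * p.1⁻¹)
        have hg' : ∀ l ∈ B, g⁻¹ * l ∉ A := by
          intro l hl hla
          apply hg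
          rw [Finset.mem_image]
          exact ⟨(g⁻¹ * l, l), Finset.mem_product.2 ⟨hla, hl⟩, by simp⟩
        refine ⟨fun m => if m ∈ A then y m else v (g * m), ha2 ?_, fun _ => ⟨g, hb2 ?_⟩⟩
        · intro m hm
          have hm' : m ∈ A := hm
          simp only [if_pos hm']
          exact (ha1 m hm').2
        · intro l hl
          simp only [if_neg (hg' l hl), mul_inv_cancel_left]
          exact (hb1 l hl).2
    · exact Filter.mem_of_superset Filter.univ_mem fun a _ h => absurd h hne
  have h2 : {y : G → X | ∀ V ∈ 𝔅, V.Nonempty → ∃ g : G, (fun u : G => y (g⁻¹ * u)) ∈ V} ∈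
      residual (G → X) := by
    have : {y : G → X | ∀ V ∈ 𝔅, V.Nonempty → ∃ g : G, (fun u : G => y (g⁻¹ * u)) ∈ V} =
        ⋂ V ∈ 𝔅, {y : G → X | V.Nonempty → ∃ g : G, (fun u : G => y (g⁻¹ * u)) ∈ V} := by
      ext a; simp
    rw [this]
    exact (countable_bInter_mem (TopologicalSpace.countable_countableBasis _)).2 h1
  refine Filter.mem_of_superset h2 fun y hy => ?_
  simp only [Set.mem_ofPred_eq]
  rw [(TopologicalSpace.isBasis_countableBasis (G → X)).dense_iff]
  intro V hV hne
  obtain ⟨g, hg⟩ := hy V hV hne
  exact ⟨_, hg, g, rfl⟩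

/-- The complement of a point of `X ^ G` is dense. -/
theorem dense_compl_point [Infinite G] [Nontrivial X] (y : G → X) : Dense ({y}ᶜ : Set (G → X)) := by
  classical
  rw [dense_iff_inter_open]
  rintro U hU ⟨w, hw⟩
  obtain ⟨A, a, ha1, ha2⟩ := isOpen_pi_iff.1 hU w hw
  obtain ⟨g, hg⟩ := Infinite.exists_notMem_finset A
  obtain ⟨c, hc⟩ := exists_ne (y g)
  refine ⟨Function.update w g c, ha2 ?_, ?_⟩
  · intro m hm
    have hne : m ≠ g := fun h => hg (h ▸ hm)
    rw [Function.update_of_ne hne]
    exact (ha1 m hm).2
  · intro h
    have := congrFun h g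
    rw [Function.update_self] at this
    exact hc this

end

/-- **The iterated jump of equality is not essentially countable.** For infinite countable groups `G`
and `H`, there is no Borel reduction of `(E^[G])^[H]`, where `E` is equality on `X`, to a reflexive
relation with countable classes. -/
theorem not_reducible {G H X : Type} [Group G] [Countable G] [Infinite G] [Group H] [Countable H]
    [Infinite H] [TopologicalSpace X] [PolishSpace X] [Nontrivial X] {W : Type}
    [TopologicalSpace W] [SecondCountableTopology W] [T1Space W] (R : W → W → Prop)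
    (hrefl : ∀ w, R w w) (hcount : ∀ w, {w' | R w w'}.Countable) (f : (H → G → X) → W)
    (hf : @Measurable (H → G → X) W (borel _) (borel W) f)
    (hred : ∀ z z', GroupJump H (GroupJump G (Eq : X → X → Prop)) z z' ↔ R (f z) (f z')) :
    False := by
  classical
  let _ : TopologicalSpace G := ⊥
  have _ : DiscreteTopology G := ⟨rfl⟩
  obtain ⟨U, hUo, hC1⟩ := borel_residual hf
  set C1 : Set (H → G → X) :=
    {x | ∀ V ∈ TopologicalSpace.countableBasis W, f x ∈ V ↔ x ∈ U V} with hC1def
  -- merging
  have hRF : ∀ F : Finset H, {z : H → G → X | {z' | merge F z z' ∈ C1} ∈ residual (H → G → X)} ∈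
      residual (H → G → X) := fun F =>
    kuratowski_ulam (merge F) (continuous_merge F) (fun O _ hOd => dense_merge F hOd) hC1
  -- dense orbits
  have hR' : ∀ l : H, {z : H → G → X | Dense (range fun g : G => fun u : G => z l (g⁻¹ * u))} ∈
      residual (H → G → X) := by
    intro l
    have h := tendsto_residual_of_isOpenMap (f := fun z : H → G → X => z l) (continuous_apply l)
      (isOpenMap_eval l)
    exact h residual_dense_orbit
  set C2 : Set (H → G → X) := C1 ∩ ((⋂ F : Finset H,
    {z : H → G → X | {z' | merge F z z' ∈ C1} ∈ residual (H → G → X)}) ∩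
    ⋂ l : H, {z : H → G → X | Dense (range fun g : G => fun u : G => z l (g⁻¹ * u))}) with hC2
  have hC2r : C2 ∈ residual (H → G → X) :=
    Filter.inter_mem hC1 (Filter.inter_mem (countable_iInter_mem.2 hRF) (countable_iInter_mem.2 hR'))
  -- a good point
  have hKU : {z : H → G → X | {g : H → G | act g z ∈ C2} ∈ residual (H → G)} ∈
      residual (H → G → X) :=
    kuratowski_ulam (fun z g => act g z) continuous_act (fun O _ hOd => dense_act hOd) hC2r
  obtain ⟨z, hz⟩ := (dense_of_mem_residual hKU).nonempty
  -- a value with a somewhere dense preimage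
  set D : W → Set (H → G) := fun w => {g | act g z ∈ C2 ∧ f (act g z) = w} with hD
  obtain ⟨w, hw⟩ : ∃ w ∈ {w' | R (f z) w'}, (interior (closure (D w))).Nonempty := by
    by_contra hcon
    push Not at hcon
    have h1 : ∀ w ∈ {w' | R (f z) w'}, (closure (D w))ᶜ ∈ residual (H → G) := by
      intro w hw
      apply residual_of_dense_open isClosed_closure.isOpen_compl
      rw [← interior_eq_empty_iff_dense_compl]
      exact hcon w hw
    have h2 := (countable_bInter_mem (hcount (f z))).2 h1
    obtain ⟨g, hg1, hg2⟩ := (dense_of_mem_residual (Filter.inter_mem h2 hz)).nonempty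
    simp only [mem_iInter] at hg1
    have h3 : R (f z) (f (act g z)) := (hred _ _).1 (jump_act g z)
    exact hg1 _ h3 (subset_closure ⟨hg2, rfl⟩)
  obtain ⟨-, g0, hg0⟩ := hw
  obtain ⟨F, u, hu1, hu2⟩ := isOpen_pi_iff.1 isOpen_interior g0 hg0
  have hcyl : ∀ g : H → G, (∀ l ∈ F, g l = g0 l) → g ∈ closure (D w) := fun g hg =>
    interior_subset (hu2 fun l hl => by rw [hg l hl]; exact (hu1 l hl).2)
  -- a point of `D w` in the cylinder
  obtain ⟨g1, hg1, hg1'⟩ : ∃ g1 : H → G, (∀ l ∈ F, g1 l = g0 l) ∧ g1 ∈ D w := by
    have hopen : IsOpen {g : H → G | ∀ l ∈ F, g l = g0 l} := by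
      have : {g : H → G | ∀ l ∈ F, g l = g0 l} = ⋂ l ∈ F, {g : H → G | g l = g0 l} := by
        ext g; simp
      rw [this]
      refine isOpen_biInter_finset fun l _ => ?_
      have hc : Continuous fun g : H → G => g l := continuous_apply l
      exact (isOpen_discrete ({g0 l} : Set G)).preimage hc
    obtain ⟨g1, h1, h2⟩ := mem_closure_iff.1 (hcyl g0 fun _ _ => rfl) _ hopen fun _ _ => rfl
    exact ⟨g1, h1, h2⟩
  set z1 := act g1 z with hz1
  have hz1C : z1 ∈ C2 := hg1'.1
  -- the closure of the orbit
  have hclos : ∀ v : H → G → X, (∀ l ∈ F, v l = z1 l) →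
      v ∈ closure ((fun g => act g z) '' D w) := by
    intro v hv
    have hcont : Continuous fun g : H → G => act g z :=
      continuous_act.comp (by fun_prop : Continuous fun g : H → G => (z, g))
    have h1 : (fun g : H → G => act g z) '' {g : H → G | ∀ l ∈ F, g l = g0 l} ⊆
        closure ((fun g => act g z) '' D w) := by
      rintro _ ⟨g, hg, rfl⟩
      exact image_closure_subset_closure_image hcont ⟨g, hcyl g hg, rfl⟩
    apply closure_minimal h1 isClosed_closure
    let T : H → Set (G → X) := fun l =>
      if l ∈ F then {z1 l} else range fun g : G => fun u : G => z1 l (g⁻¹ * u)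
    have h2 : Set.univ.pi T ⊆
        (fun g : H → G => act g z) '' {g : H → G | ∀ l ∈ F, g l = g0 l} := by
      intro y hy
      have h3 : ∀ l, l ∉ F → ∃ g : G, (fun u : G => z1 l (g⁻¹ * u)) = y l := by
        intro l hl
        have := hy l (mem_univ l)
        simp only [T, if_neg hl] at this
        exact this
      have h4 : ∀ l, l ∈ F → y l = z1 l := by
        intro l hl
        have := hy l (mem_univ l)
        simp only [T, if_pos hl] at this
        exact this
      choose k hk using h3
      refine ⟨fun l => if hl : l ∈ F then g0 l else k l hl * g1 l, ?_, ?_⟩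
      · intro l hl
        simp only [dif_pos hl]
      · funext l u
        by_cases hl : l ∈ F
        · simp only [act, dif_pos hl]
          rw [h4 l hl, hz1]
          simp only [act, hg1 l hl]
        · simp only [act, dif_neg hl]
          rw [← hk l hl, hz1]
          simp only [act, mul_inv_rev, mul_assoc]
    refine closure_mono h2 ?_
    rw [closure_pi_set]
    intro l _
    by_cases hl : l ∈ F
    · simp only [T, if_pos hl]
      rw [hv l hl]
      exact subset_closure rfl
    · simp only [T, if_neg hl]
      have h3 := hz1C.2.2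
      simp only [mem_iInter] at h3
      exact h3 l (v l)
  -- `f` is constant
  have hconst : ∀ v ∈ C1, (∀ l ∈ F, v l = z1 l) → f v = w := by
    intro v hv hvF
    by_contra hne
    obtain ⟨V, hV, hfV, hVw⟩ := (TopologicalSpace.isBasis_countableBasis W).exists_subset_of_mem_open
      (show f v ∈ ({w}ᶜ : Set W) from hne) isOpen_compl_singleton
    have h1 : v ∈ U V := (hv V hV).1 hfV
    obtain ⟨_, h2, g, hg, rfl⟩ := mem_closure_iff.1 (hclos v hvF) _ (hUo V) h1
    have h3 : f (act g z) ∈ V := (hg.1.1 V hV).2 h2
    rw [hg.2] at h3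
    exact hVw h3 rfl
  -- many points
  have hM : {z' : H → G → X | merge F z1 z' ∈ C1} ∈ residual (H → G → X) := by
    have := hz1C.2.1
    simp only [mem_iInter] at this
    exact this F
  obtain ⟨z0, hz0⟩ := (dense_of_mem_residual hM).nonempty
  obtain ⟨h0, hh0⟩ := Infinite.exists_notMem_finset F
  set N : Set (G → X) := range fun p : H × G => fun u : G => merge F z1 z0 p.1 (p.2 * u) with hN
  have hNc : N.Countable := countable_range _
  have hsub : ∀ z' : H → G → X, merge F z1 z' ∈ C1 → z' h0 ∈ N := by
    intro z' hz'
    have h1 := hconst _ hz' fun l hl => merge_of_mem hl _ _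
    have h2 := hconst _ hz0 fun l hl => merge_of_mem hl _ _
    have h3 : GroupJump H (GroupJump G (Eq : X → X → Prop)) (merge F z1 z') (merge F z1 z0) := by
      rw [hred, h1, h2]
      exact hrefl w
    obtain ⟨h, hh⟩ := h3
    obtain ⟨g, hg⟩ := hh (h * h0)
    refine ⟨(h * h0, g), ?_⟩
    funext u
    have h4 := hg (g * u)
    simp only [inv_mul_cancel_left, merge_of_notMem hh0] at h4
    exact h4.symm
  have hcompl : ∀ y ∈ N, {z' : H → G → X | z' h0 ≠ y} ∈ residual (H → G → X) := by
    intro y _
    apply residual_of_dense_open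
    · exact isOpen_compl_singleton.preimage (continuous_apply h0)
    · exact (dense_compl_point y).preimage (isOpenMap_eval h0)
  have h5 := (countable_bInter_mem hNc).2 hcompl
  obtain ⟨z', hz'1, hz'2⟩ := (dense_of_mem_residual (Filter.inter_mem h5 hM)).nonempty
  simp only [mem_iInter] at hz'1
  exact hz'1 _ (hsub z' hz'2) rfl

end Pool.Agent.J6H20.Jump
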